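import Pool.Agent.helper23.F2.Spec

/-!
# Row f2:AX3: the labels of the edges of the auxiliary graph
-/

set_option autoImplicit false

namespace Pool.Agent.F2

open Pool.Agent.helper23.TH

theorem AX3_mem {V L : Type} {b s : ℕ} (G : LG V L b s) {t : ℕ} (S : Finset (Fin (t + 3) → V)) (x y : V) (z : L) :
    z ∈ ale G S x y ↔ aA S x y ∧ ∃ o : Ob t, Inn o ∧ z ∈ G.obj (aP S x y) o := by
  classical
  unfold ale
  by_cases h : aA S x y
  · rw [if_pos h]
    constructor
    · intro hz
      obtain ⟨o, ho, hz'⟩ := Finset.mem_biUnion.1 hz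
      exact ⟨h, o, (Finset.mem_filter.1 ho).2, hz'⟩
    · rintro ⟨_, o, ho, hz'⟩
      exact Finset.mem_biUnion.2 ⟨o, Finset.mem_filter.2 ⟨Finset.mem_univ o, ho⟩, hz'⟩
  · rw [if_neg h]
    constructor
    · intro hz
      exact absurd hz (Finset.notMem_empty z)
    · rintro ⟨h', _⟩
      exact absurd h' h

theorem AX3_sub {V L : Type} {b s : ℕ} (hWK5 : WK5_stmt) (G : LG V L b s) {t : ℕ} (S : Finset (Fin (t + 3) → V))
    (hs : ∀ x y, aA S x y → aA S y x) (hr : ∀ x y, aA S x y → aw S y x = fun i => aw S x y i.rev) (x y : V) (z : L)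
    (hz : z ∈ ale G S x y) : z ∈ ale G S y x := by
  rw [AX3_mem] at hz ⊢
  obtain ⟨hA, o, ho, hz'⟩ := hz
  refine ⟨hs x y hA, ?_⟩
  have hP : aP S y x = fun i : Fin (t + 1) => aP S x y i.rev := by
    funext i
    unfold aP
    rw [hr x y hA]
    have he : (i.succ.castSucc).rev = (i.rev).succ.castSucc := by
      apply Fin.ext
      have hi := i.2
      simp only [Fin.val_rev, Fin.val_castSucc, Fin.val_succ]
      omega
    change aw S x y (i.succ.castSucc).rev = aw S x y (i.rev).succ.castSucc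
    rw [he]
  obtain ⟨_, h1, h2, _⟩ := hWK5 V L b s G t (aP S x y)
  rw [hP]
  rcases o with i | j
  · refine ⟨.inl i.rev, ⟨?_, ?_⟩, ?_⟩
    · intro h
      have h3 : i.rev = 0 := Sum.inl.inj h
      refine ho.2 (congrArg Sum.inl ?_)
      rw [← Fin.rev_rev i, h3, Fin.rev_zero]
    · intro h
      have h3 : i.rev = Fin.last t := Sum.inl.inj h
      refine ho.1 (congrArg Sum.inl ?_)
      rw [← Fin.rev_rev i, h3, Fin.rev_last]
    · rw [h1 i.rev, Fin.rev_rev]
      exact hz'
  · refine ⟨.inr j.rev, ⟨fun h => ?_, fun h => ?_⟩, ?_⟩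
    · exact absurd h Sum.inr_ne_inl
    · exact absurd h Sum.inr_ne_inl
    · rw [h2 j.rev, Fin.rev_rev]
      exact hz'

theorem AX3_obj {V L : Type} {b s : ℕ} (G : LG V L b s) {t : ℕ} (P : Fin (t + 1) → V) (o : Ob t) :
    (G.obj P o).card ≤ b := by
  rcases o with i | j
  · exact G.bv (P i)
  · exact G.be (P j.castSucc) (P j.succ)

theorem AX3 (hAX1 : AX1_stmt) (hAX2 : AX2_stmt) (hWK5 : WK5_stmt) : AX3_stmt := by
  classical
  intro V L _ b s G t q m m' ρ S ht hAD
  obtain ⟨_, _, _, _, hs, _, _, hr⟩ := hAX1 V L b s G t q m m' ρ S ht hAD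
  refine ⟨?_, ?_, ?_⟩
  · intro x y
    exact Finset.ext fun z => ⟨AX3_sub hWK5 G S hs hr x y z, AX3_sub hWK5 G S hs hr y x z⟩
  · intro x y
    unfold ale
    by_cases h : aA S x y
    · rw [if_pos h]
      refine le_trans (Finset.card_biUnion_le_card_mul _ _ b fun o _ => AX3_obj G (aP S x y) o) ?_
      refine Nat.mul_le_mul_right b ?_
      refine le_trans (Finset.card_filter_le _ _) ?_
      rw [Finset.card_univ, Fintype.card_sum, Fintype.card_fin, Fintype.card_fin]
      omega
    · rw [if_neg h, Finset.card_empty]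
      exact Nat.zero_le _
  · intro x
    have h2 : b + b ≤ (2 * t + 3) * b := by
      have h3 : (2 * t + 3) * b = b + b + (2 * t + 1) * b := by ring
      rw [h3]
      exact Nat.le_add_right _ _
    refine le_trans ?_ h2
    unfold alv
    split_ifs
    · exact le_trans (Finset.card_union_le _ _) (Nat.add_le_add (G.bv x) (G.be m x))
    · exact le_trans (Finset.card_union_le _ _) (Nat.add_le_add (G.bv x) (G.be m' x))

end Pool.Agent.F2
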